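import Mathlib

set_option autoImplicit false

/-!
# Growth functions of finitely presented semigroups do not oscillate at will

There are only countably many finitely presented semigroups, so a single subexponential function
`f₂` eventually dominates every subexponential growth function of a finitely presented semigroup.
By submultiplicativity, a growth function which is infinitely often below a subexponential
function is itself subexponential. Hence no growth function of a finitely presented semigroup is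
infinitely often below a subexponential function `f₁` and infinitely often above `f₂`.
-/

namespace Pool.Agent.Results.MP_dd6e79_al.NoOscillation

open Filter

universe u v

/-- The elements of `S` which are products `x * y₁ * ... * yₖ` of at most `n` elements of `X`
(at least one factor). -/
def ball {S : Type u} [Semigroup S] (X : Set S) (n : ℕ) : Set S :=
  {s : S | ∃ x ∈ X, ∃ l : List S, (∀ y ∈ l, y ∈ X) ∧ l.length + 1 ≤ n ∧
    l.foldl (fun a b => a * b) x = s}

/-- The growth function of the semigroup `S` with respect to `X`: the number of elements of `S`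
which are represented by nonempty words of length at most `n` over `X`. -/
noncomputable def growth {S : Type u} [Semigroup S] (X : Set S) (n : ℕ) : ℕ :=
  (ball X n).ncard

/-- `Dom f g` is `f ⪯ g`: there is `C ≥ 1` with `f n ≤ C * g (C * n)` for all `n`. -/
def Dom (f g : ℕ → ℕ) : Prop := ∃ C : ℕ, 1 ≤ C ∧ ∀ n, f n ≤ C * g (C * n)

/-- `f ∼ g`: `f ⪯ g` and `g ⪯ f`. -/
def Equiv (f g : ℕ → ℕ) : Prop := Dom f g ∧ Dom g f

/-- `f` is subexponential: for every real `c > 1`, `f n ≤ c ^ n` for all large `n`. -/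
def Subexp (f : ℕ → ℕ) : Prop := ∀ c : ℝ, 1 < c → ∀ᶠ n in atTop, (f n : ℝ) ≤ c ^ n

/-- `S` is finitely presented: it is isomorphic to the quotient of the free semigroup on finitely
many letters by the congruence generated by a finite set `R` of pairs of (nonempty) words. -/
def FinitelyPresented (S : Type u) [Semigroup S] : Prop :=
  ∃ (k : ℕ) (R : Set (FreeSemigroup (Fin k) × FreeSemigroup (Fin k))), R.Finite ∧
    Nonempty ((conGen (fun a b => (a, b) ∈ R)).Quotient ≃* S)

/-! ### Submultiplicativity -/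

section growth

variable {S : Type u} [Semigroup S]

theorem ball_finite {X : Set S} (hX : X.Finite) (n : ℕ) : (ball X n).Finite := by
  have : Finite X := hX
  have h1 : ({l : List X | l.length ≤ n}).Finite := List.finite_length_le X n
  have h2 : (Set.univ ×ˢ {l : List X | l.length ≤ n} : Set (X × List X)).Finite :=
    Set.finite_univ.prod h1
  refine (h2.image (fun p => (p.2.map Subtype.val).foldl (fun a b => a * b) (p.1 : S))).subset ?_
  rintro s ⟨x, hx, l, hl, hlen, rfl⟩
  lift l to List X using hl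
  exact ⟨(⟨x, hx⟩, l), ⟨Set.mem_univ _, by simpa using by simp at hlen; omega⟩, rfl⟩

theorem ball_mono {X : Set S} {m n : ℕ} (h : m ≤ n) : ball X m ⊆ ball X n := by
  rintro s ⟨x, hx, l, hl, hlen, rfl⟩
  exact ⟨x, hx, l, hl, hlen.trans h, rfl⟩

theorem foldl_mul (l : List S) (a b : S) :
    l.foldl (fun a b => a * b) (a * b) = a * l.foldl (fun a b => a * b) b := by
  induction l generalizing b with
  | nil => rfl
  | cons c l ih => simp only [List.foldl_cons]; rw [mul_assoc, ih]

theorem ball_add {X : Set S} (m n : ℕ) :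
    ball X (m + n) ⊆ ball X m ∪ ball X n ∪ Set.image2 (fun a b => a * b) (ball X m) (ball X n) := by
  rintro s ⟨x, hx, l, hl, hlen, rfl⟩
  rcases Nat.eq_zero_or_pos m with rfl | hm
  · left; right
    exact ⟨x, hx, l, hl, by omega, rfl⟩
  rcases Nat.lt_or_ge (l.length + 1) (m + 1) with h | h
  · left; left
    exact ⟨x, hx, l, hl, by omega, rfl⟩
  · right
    obtain ⟨m, rfl⟩ : ∃ m', m = m' + 1 := ⟨m - 1, by omega⟩
    have hlt : m < l.length := by omega
    refine ⟨(l.take m).foldl (fun a b => a * b) x, ⟨x, hx, l.take m, ?_, ?_, rfl⟩,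
      (l.drop (m + 1)).foldl (fun a b => a * b) l[m], ⟨l[m], ?_, l.drop (m + 1), ?_, ?_, rfl⟩, ?_⟩
    · intro y hy
      exact hl y (List.mem_of_mem_take hy)
    · simp [List.length_take]
    · exact hl _ (List.getElem_mem hlt)
    · intro y hy
      exact hl y (List.mem_of_mem_drop hy)
    · simp only [List.length_drop]; omega
    · conv_rhs => rw [← List.take_append_drop m l, List.foldl_append,
        List.drop_eq_getElem_cons hlt, List.foldl_cons]
      rw [foldl_mul]

theorem growth_add {X : Set S} (hX : X.Finite) (m n : ℕ) :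
    growth X (m + n) + 1 ≤ (growth X m + 1) * (growth X n + 1) := by
  have h1 : growth X (m + n) ≤ growth X m + growth X n + growth X m * growth X n := by
    unfold growth
    have hfin : (ball X m ∪ ball X n ∪
        Set.image2 (fun a b => a * b) (ball X m) (ball X n)).Finite :=
      ((ball_finite hX m).union (ball_finite hX n)).union
        ((ball_finite hX m).image2 _ (ball_finite hX n))
    refine (Set.ncard_le_ncard (ball_add m n) hfin).trans ?_
    refine (Set.ncard_union_le _ _).trans ?_
    have h2 := Set.ncard_union_le (ball X m) (ball X n)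
    have h3 : (Set.image2 (fun a b => a * b) (ball X m) (ball X n)).ncard ≤
        (ball X m).ncard * (ball X n).ncard := by
      rw [← Set.image_uncurry_prod]
      refine (Set.ncard_image_le ((ball_finite hX m).prod (ball_finite hX n))).trans ?_
      rw [Set.ncard_prod]
    omega
  nlinarith

theorem growth_mul {X : Set S} (hX : X.Finite) (m q : ℕ) :
    growth X (m * q) + 1 ≤ (growth X m + 1) ^ q := by
  induction q with
  | zero =>
    have : growth X (m * 0) = 0 := by
      unfold growth
      have : ball X (m * 0) = ∅ := by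
        ext s
        simp only [Set.mem_empty_iff_false, iff_false]
        rintro ⟨x, hx, l, hl, hlen, rfl⟩
        omega
      rw [this, Set.ncard_empty]
    rw [this]; simp
  | succ q ih =>
    rw [Nat.mul_succ, pow_succ]
    refine (growth_add hX _ _).trans ?_
    exact Nat.mul_le_mul_right _ ih

theorem growth_mono {X : Set S} (hX : X.Finite) {m n : ℕ} (h : m ≤ n) :
    growth X m ≤ growth X n :=
  Set.ncard_le_ncard (ball_mono h) (ball_finite hX n)

/-- A growth function which is infinitely often below a subexponential function is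
subexponential. -/
theorem subexp_of_frequently {X : Set S} (hX : X.Finite) {f : ℕ → ℕ} (hf : Subexp f)
    (h : ∃ᶠ n in atTop, growth X n < f n) : Subexp (growth X) := by
  intro c hc
  have hs : 1 < Real.sqrt c := by
    rw [Real.lt_sqrt (by norm_num)]; simpa using hc
  obtain ⟨m, hm1, hm2, hm3⟩ := (h.and_eventually ((hf _ hs).and (eventually_ge_atTop 1))).exists
  have hpos : (0 : ℝ) < Real.sqrt c := by linarith
  filter_upwards [eventually_ge_atTop m] with n hn
  have h1 : growth X n + 1 ≤ (growth X m + 1) ^ (n / m + 1) := by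
    refine le_trans ?_ (growth_mul hX m (n / m + 1))
    have : n ≤ m * (n / m + 1) := (Nat.lt_mul_div_succ n (by omega)).le
    have := growth_mono hX this
    omega
  have h2 : ((growth X m + 1 : ℕ) : ℝ) ≤ Real.sqrt c ^ m := by
    refine le_trans ?_ hm2
    exact_mod_cast hm1
  have h3 : ((growth X n + 1 : ℕ) : ℝ) ≤ (Real.sqrt c ^ m) ^ (n / m + 1) := by
    have h1' : ((growth X n + 1 : ℕ) : ℝ) ≤ ((growth X m + 1 : ℕ) : ℝ) ^ (n / m + 1) := by
      exact_mod_cast h1
    exact h1'.trans (pow_le_pow_left₀ (by positivity) h2 _)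
  have h4 : (Real.sqrt c ^ m) ^ (n / m + 1) ≤ c ^ n := by
    rw [← pow_mul]
    have h5 : m * (n / m + 1) ≤ 2 * n := by
      have := Nat.mul_div_le n m
      rw [Nat.mul_add]; omega
    calc Real.sqrt c ^ (m * (n / m + 1)) ≤ Real.sqrt c ^ (2 * n) :=
          pow_le_pow_right₀ hs.le h5
      _ = c ^ n := by rw [pow_mul, Real.sq_sqrt (by linarith)]
  have h6 : (growth X n : ℝ) ≤ ((growth X n + 1 : ℕ) : ℝ) := by push_cast; linarith
  exact h6.trans (h3.trans h4)

end growth

/-! ### Subexponential functions -/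

theorem Subexp.of_le {f g : ℕ → ℕ} (hg : Subexp g) (h : ∀ᶠ n in atTop, f n ≤ g n) :
    Subexp f := by
  intro c hc
  filter_upwards [h, hg c hc] with n h1 h2
  exact le_trans (by exact_mod_cast h1) h2

theorem Subexp.pow (k : ℕ) : Subexp (fun n => n ^ k) := by
  intro c hc
  have h := tendsto_pow_const_div_const_pow_of_one_lt k hc
  have h1 : ∀ᶠ n : ℕ in atTop, (n : ℝ) ^ k / c ^ n < 1 :=
    h.eventually (gt_mem_nhds one_pos)
  filter_upwards [h1] with n hn
  rw [div_lt_one (by positivity)] at hn
  push_cast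
  exact hn.le

theorem Subexp.add {f g : ℕ → ℕ} (hf : Subexp f) (hg : Subexp g) :
    Subexp (fun n => f n + g n) := by
  intro c hc
  have hs : 1 < Real.sqrt c := by
    rw [Real.lt_sqrt (by norm_num)]; simpa using hc
  have h2 : ∀ᶠ n : ℕ in atTop, 2 ≤ Real.sqrt c ^ n :=
    (tendsto_pow_atTop_atTop_of_one_lt hs).eventually (eventually_ge_atTop 2)
  filter_upwards [hf _ hs, hg _ hs, h2] with n h3 h4 h5
  push_cast
  have h6 : Real.sqrt c ^ n * Real.sqrt c ^ n = c ^ n := by
    rw [← mul_pow, Real.mul_self_sqrt (by linarith)]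
  nlinarith

theorem Subexp.const (a : ℕ) : Subexp (fun _ => a) := by
  intro c hc
  exact (tendsto_pow_atTop_atTop_of_one_lt hc).eventually (eventually_ge_atTop (a : ℝ))

/-- running maximum -/
def rmax (f : ℕ → ℕ) (n : ℕ) : ℕ := (Finset.range (n + 1)).sup f

theorem le_rmax (f : ℕ → ℕ) (n : ℕ) : f n ≤ rmax f n :=
  Finset.le_sup (f := f) (Finset.mem_range.2 (Nat.lt_succ_self n))

theorem rmax_mono (f : ℕ → ℕ) : Monotone (rmax f) := by
  intro m n h
  exact Finset.sup_mono (Finset.range_mono (by omega))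

theorem Subexp.rmax {f : ℕ → ℕ} (hf : Subexp f) : Subexp (rmax f) := by
  intro c hc
  obtain ⟨N, hN⟩ := eventually_atTop.1 (hf c hc)
  have h2 : ∀ᶠ n : ℕ in atTop, ((NoOscillation.rmax f N : ℕ) : ℝ) ≤ c ^ n := Subexp.const _ c hc
  filter_upwards [h2, eventually_ge_atTop N] with n h3 h4
  obtain ⟨m, hm, hm2⟩ := Finset.exists_mem_eq_sup (Finset.range (n + 1)) ⟨0, by simp⟩ f
  unfold NoOscillation.rmax
  rw [hm2]
  rw [Finset.mem_range] at hm
  rcases le_total m N with h | h
  · refine le_trans ?_ h3
    exact_mod_cast Finset.le_sup (f := f) (Finset.mem_range.2 (by omega))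
  · exact (hN m h).trans (pow_le_pow_right₀ hc.le (by omega))

/-- **Diagonal lemma**: countably many subexponential functions are eventually dominated by one
strictly increasing subexponential function. -/
theorem exists_dominating (F : ℕ → ℕ → ℕ) (hF : ∀ i, Subexp (F i)) :
    ∃ g : ℕ → ℕ, StrictMono g ∧ Subexp g ∧ ∀ i, ∀ᶠ n in atTop, F i n ≤ g n := by
  let c : ℕ → ℝ := fun j => 1 + 1 / ((j : ℝ) + 1)
  have hc : ∀ j, 1 < c j := fun j => by
    have : (0 : ℝ) < 1 / ((j : ℝ) + 1) := by positivity
    simp only [c]; linarith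
  have hc' : ∀ {i j}, i ≤ j → c j ≤ c i := by
    intro i j h
    simp only [c]
    have : 1 / ((j : ℝ) + 1) ≤ 1 / ((i : ℝ) + 1) := by
      apply one_div_le_one_div_of_le (by positivity)
      have : (i : ℝ) ≤ j := by exact_mod_cast h
      linarith
    linarith
  choose N hN using fun i j => eventually_atTop.1 (hF i (c j) (hc j))
  let M : ℕ → ℕ := fun j => j + ∑ i ∈ Finset.range (j + 1), N i j
  have hM : ∀ j, j ≤ M j := fun j => Nat.le_add_right _ _
  have hMN : ∀ i j, i ≤ j → N i j ≤ M j := by
    intro i j h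
    have : N i j ≤ ∑ i ∈ Finset.range (j + 1), N i j :=
      Finset.single_le_sum (f := fun i => N i j) (fun _ _ => Nat.zero_le _)
        (Finset.mem_range.2 (by omega))
    exact this.trans (Nat.le_add_left _ _)
  let k : ℕ → ℕ := fun n => Nat.findGreatest (fun j => M j ≤ n) n
  have hk : ∀ n, M 0 ≤ n → M (k n) ≤ n := by
    intro n hn
    exact Nat.findGreatest_spec (P := fun j => M j ≤ n) (Nat.zero_le n) hn
  have hk2 : ∀ j n, M j ≤ n → j ≤ k n := by
    intro j n h
    exact Nat.le_findGreatest ((hM j).trans h) h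
  let h : ℕ → ℕ := fun n => (Finset.range (k n + 1)).sup (fun i => F i n)
  have hh : Subexp h := by
    intro b hb
    obtain ⟨j, hj⟩ := exists_nat_one_div_lt (sub_pos.2 hb)
    have hcj : c j ≤ b := by simp only [c]; linarith
    filter_upwards [eventually_ge_atTop (M j), eventually_ge_atTop (M 0)] with n hn hn0
    obtain ⟨i, hi, hi2⟩ := Finset.exists_mem_eq_sup (Finset.range (k n + 1)) ⟨0, by simp⟩
      (fun i => F i n)
    simp only [h]
    rw [hi2]
    rw [Finset.mem_range] at hi
    have h1 : N i (k n) ≤ n := (hMN i (k n) (by omega)).trans (hk n hn0)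
    refine (hN i (k n) n h1).trans ?_
    apply pow_le_pow_left₀ (by linarith [hc (k n)])
    exact (hc' (hk2 j n hn)).trans hcj
  refine ⟨fun n => n ^ 1 + rmax h n, ?_, (Subexp.pow 1).add hh.rmax, ?_⟩
  · intro m n hmn
    have := rmax_mono h hmn.le
    simp only [pow_one]
    omega
  · intro i
    filter_upwards [eventually_ge_atTop (M i)] with n hn
    have h1 : F i n ≤ h n :=
      Finset.le_sup (f := fun i => F i n) (Finset.mem_range.2 (by have := hk2 i n hn; omega))
    exact (h1.trans (le_rmax h n)).trans (Nat.le_add_left _ _)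

theorem Subexp.dom {f : ℕ → ℕ} (hf : Subexp f) : Dom f (fun n => 2 ^ n) := by
  obtain ⟨N, hN⟩ := eventually_atTop.1 (hf 2 (by norm_num))
  refine ⟨1 + NoOscillation.rmax f N, by omega, fun n => ?_⟩
  rcases le_total N n with h | h
  · have h1 : f n ≤ 2 ^ n := by exact_mod_cast hN n h
    have h2 : 2 ^ n ≤ 2 ^ ((1 + NoOscillation.rmax f N) * n) :=
      Nat.pow_le_pow_right (by norm_num) (Nat.le_mul_of_pos_left _ (by omega))
    exact (h1.trans h2).trans (Nat.le_mul_of_pos_left _ (by omega))
  · have h1 : f n ≤ NoOscillation.rmax f N := (le_rmax f n).trans (rmax_mono f h)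
    exact (h1.trans (Nat.le_add_left _ 1)).trans
      (Nat.le_mul_of_pos_right _ (Nat.pos_of_ne_zero (by positivity)))

theorem Subexp.not_dom {f : ℕ → ℕ} (hf : Subexp f) : ¬ Dom (fun n => 2 ^ n) f := by
  rintro ⟨C, hC, h⟩
  have hC' : (0 : ℝ) < C := by exact_mod_cast hC
  let b : ℝ := 2 ^ (1 / (2 * (C : ℝ)))
  have hb : 1 < b := Real.one_lt_rpow (by norm_num) (by positivity)
  obtain ⟨N, hN⟩ := eventually_atTop.1 (hf b hb)
  have h3 : ∀ᶠ n : ℕ in atTop, (C : ℝ) < Real.sqrt 2 ^ n := by
    have hs : 1 < Real.sqrt 2 := by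
      rw [Real.lt_sqrt (by norm_num)]; norm_num
    exact (tendsto_pow_atTop_atTop_of_one_lt hs).eventually (eventually_gt_atTop _)
  obtain ⟨n, hn1, hn2⟩ := (h3.and (eventually_ge_atTop N)).exists
  have h4 : (f (C * n) : ℝ) ≤ Real.sqrt 2 ^ n := by
    refine (hN (C * n) (hn2.trans (Nat.le_mul_of_pos_left _ hC))).trans ?_
    have : b ^ (C * n) = Real.sqrt 2 ^ n := by
      rw [pow_mul]
      congr 1
      rw [← Real.rpow_natCast, ← Real.rpow_mul (by norm_num), Real.sqrt_eq_rpow]
      congr 1
      field_simp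
    exact this.le
  have h5 : ((2 ^ n : ℕ) : ℝ) ≤ ((C * f (C * n) : ℕ) : ℝ) := by exact_mod_cast h n
  push_cast at h5
  have h6 : Real.sqrt 2 ^ n * Real.sqrt 2 ^ n = 2 ^ n := by
    rw [← mul_pow, Real.mul_self_sqrt (by norm_num)]
  have h7 : 0 < Real.sqrt 2 ^ n := by positivity
  nlinarith

/-! ### Countability -/

theorem ball_image {S : Type u} {T : Type v} [Semigroup S] [Semigroup T] (e : S ≃* T)
    (X : Set S) (n : ℕ) : ball (e '' X) n = e '' ball X n := by
  have hfold : ∀ (l : List S) (x : S),
      (l.map e).foldl (fun a b => a * b) (e x) = e (l.foldl (fun a b => a * b) x) := by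
    intro l
    induction l with
    | nil => intro x; rfl
    | cons a l ih => intro x; simp only [List.map_cons, List.foldl_cons]; rw [← map_mul, ih]
  ext t
  constructor
  · rintro ⟨_, ⟨x, hx, rfl⟩, l, hl, hlen, rfl⟩
    have h1 : ∃ l' : List S, (∀ y ∈ l', y ∈ X) ∧ l'.map e = l := by
      refine ⟨l.map e.symm, ?_, by simp [Function.comp_def]⟩
      intro y hy
      obtain ⟨z, hz, rfl⟩ := List.mem_map.1 hy
      obtain ⟨w, hw, rfl⟩ := hl z hz
      simpa using hw
    obtain ⟨l', hl', rfl⟩ := h1
    exact ⟨_, ⟨x, hx, l', hl', by simpa using hlen, rfl⟩, (hfold l' x).symm⟩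
  · rintro ⟨_, ⟨x, hx, l, hl, hlen, rfl⟩, rfl⟩
    refine ⟨e x, ⟨x, hx, rfl⟩, l.map e, ?_, by simpa using hlen, hfold l x⟩
    intro y hy
    obtain ⟨z, hz, rfl⟩ := List.mem_map.1 hy
    exact ⟨z, hl z hz, rfl⟩

theorem growth_image {S : Type u} {T : Type v} [Semigroup S] [Semigroup T] (e : S ≃* T)
    (X : Set S) : growth (e '' X) = growth X := by
  funext n
  unfold growth
  rw [ball_image, Set.ncard_image_of_injective _ e.injective]

instance (k : ℕ) : Countable (FreeSemigroup (Fin k)) := by
  have : Function.Injective (fun w : FreeSemigroup (Fin k) => (w.head, w.tail)) := by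
    rintro ⟨a, l⟩ ⟨b, m⟩ h
    simpa using h
  exact this.countable

/-- The growth functions of finitely presented semigroups with respect to finite sets. -/
def fam : Set (ℕ → ℕ) :=
  {f | ∃ (k : ℕ) (R : Set (FreeSemigroup (Fin k) × FreeSemigroup (Fin k))) (_ : R.Finite)
    (Y : Set ((conGen (fun a b => (a, b) ∈ R)).Quotient)) (_ : Y.Finite), f = growth Y}

theorem fam_countable : fam.Countable := by
  let J := Σ k : ℕ, Finset (FreeSemigroup (Fin k) × FreeSemigroup (Fin k)) ×
    Finset (FreeSemigroup (Fin k))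
  let G : J → (ℕ → ℕ) := fun p =>
    growth (((fun w : FreeSemigroup (Fin p.1) =>
      (w : (conGen (fun a b => (a, b) ∈ (p.2.1 : Set (FreeSemigroup (Fin p.1) ×
        FreeSemigroup (Fin p.1))))).Quotient)) '' (p.2.2 : Set (FreeSemigroup (Fin p.1)))))
  refine (Set.countable_range G).mono ?_
  rintro f ⟨k, R, hR, Y, hY, rfl⟩
  obtain ⟨R, rfl⟩ := hR.exists_finset_coe
  obtain ⟨Z, hZ⟩ : ∃ Z : Finset (FreeSemigroup (Fin k)),
      (fun w : FreeSemigroup (Fin k) =>
        (w : (conGen (fun a b => (a, b) ∈ (R : Set (FreeSemigroup (Fin k) ×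
          FreeSemigroup (Fin k))))).Quotient)) '' (Z : Set (FreeSemigroup (Fin k))) = Y := by
    classical
    have hsurj : Function.Surjective (fun w : FreeSemigroup (Fin k) =>
        (w : (conGen (fun a b => (a, b) ∈ (R : Set (FreeSemigroup (Fin k) ×
          FreeSemigroup (Fin k))))).Quotient)) := Quotient.exists_rep
    refine ⟨hY.toFinset.image (Function.surjInv hsurj), ?_⟩
    rw [Finset.coe_image, Set.Finite.coe_toFinset, Set.image_image]
    simp [Function.surjInv_eq hsurj]
  exact ⟨⟨k, R, Z⟩, by simp only [G]; rw [hZ]⟩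

theorem growth_mem_fam {S : Type u} [Semigroup S] (hS : FinitelyPresented S) {X : Set S}
    (hX : X.Finite) : growth X ∈ fam := by
  obtain ⟨k, R, hR, ⟨e⟩⟩ := hS
  refine ⟨k, R, hR, e.symm '' X, hX.image _, ?_⟩
  rw [growth_image]

/-- **Main result.** There is a strictly increasing function `f₂ ⪯ 2 ^ n` with `f₂ ≁ 2 ^ n` such
that for every subexponential function `f₁`, every finitely presented semigroup `S` and every
finite set `X` of elements of `S` (in particular every finite generating set), the growth function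
`f` of `S` with respect to `X` satisfies `f₁ n ≤ f n` for all large `n` or `f n ≤ f₂ n` for all
large `n`. The function `n ^ 3` is one of the functions `f₁`: it is strictly increasing and
subexponential, and `n ^ 2 ⪯ n ^ 3`, `n ^ 3 ≁ n ^ 2`. -/
theorem result :
    ∃ f₂ : ℕ → ℕ, StrictMono f₂ ∧ Dom f₂ (fun n => 2 ^ n) ∧ ¬ Equiv f₂ (fun n => 2 ^ n) ∧
      (∀ f₁ : ℕ → ℕ, Subexp f₁ →
        ∀ (S : Type u) [Semigroup S], FinitelyPresented S →
          ∀ X : Set S, X.Finite →
            (∀ᶠ n in atTop, f₁ n ≤ growth X n) ∨ (∀ᶠ n in atTop, growth X n ≤ f₂ n)) ∧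
      StrictMono (fun n : ℕ => n ^ 3) ∧ Subexp (fun n => n ^ 3) ∧
      Dom (fun n => n ^ 2) (fun n => n ^ 3) ∧ ¬ Equiv (fun n => n ^ 3) (fun n => n ^ 2) := by
  obtain ⟨F, hF⟩ : ∃ F : ℕ → ℕ → ℕ, insert (fun _ => 0) {f ∈ fam | Subexp f} = Set.range F :=
    ((fam_countable.mono (Set.sep_subset _ _)).insert _).exists_eq_range ⟨_, Set.mem_insert _ _⟩
  have hF2 : ∀ i, Subexp (F i) := by
    intro i
    have : F i ∈ insert (fun _ => 0) {f ∈ fam | Subexp f} := hF ▸ Set.mem_range_self i
    rcases this with h | h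
    · rw [h]; exact Subexp.const 0
    · exact h.2
  obtain ⟨g, hg1, hg2, hg3⟩ := exists_dominating F hF2
  refine ⟨g, hg1, hg2.dom, fun h => hg2.not_dom h.2, ?_, ?_, Subexp.pow 3, ?_, ?_⟩
  · intro f₁ hf₁ S _ hS X hX
    by_contra hcon
    push Not at hcon
    obtain ⟨h1, h2⟩ := hcon
    have h1' : ∃ᶠ n in atTop, growth X n < f₁ n := by
      refine h1.mono ?_
      intro n hn; omega
    have h3 : Subexp (growth X) := subexp_of_frequently hX hf₁ h1'
    have h4 : growth X ∈ Set.range F := hF ▸ Set.mem_insert_of_mem _ ⟨growth_mem_fam hS hX, h3⟩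
    obtain ⟨i, hi⟩ := h4
    have h5 := hg3 i
    rw [hi] at h5
    obtain ⟨n, h6, h7⟩ := (h2.and_eventually h5).exists
    omega
  · intro m n h
    exact Nat.pow_lt_pow_left h (by norm_num)
  · refine ⟨1, le_rfl, fun n => ?_⟩
    rw [one_mul, one_mul]
    rcases Nat.eq_zero_or_pos n with rfl | hn
    · simp
    · exact Nat.pow_le_pow_right hn (by norm_num)
  · rintro ⟨⟨C, hC, h⟩, -⟩
    have h1 := h (C ^ 3 + 1)
    simp only at h1
    have h2 : C * (C * (C ^ 3 + 1)) ^ 2 = C ^ 3 * (C ^ 3 + 1) ^ 2 := by ring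
    rw [h2, pow_succ (C ^ 3 + 1) 2, mul_comm] at h1
    have h3 := Nat.le_of_mul_le_mul_right h1 (by positivity)
    omega

end Pool.Agent.Results.MP_dd6e79_al.NoOscillation
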